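import Pool.Agent.W837.GB.Defs

/-!
Project GB, part EXP: from summable convergence in probability to the expectation.
-/

set_option autoImplicit false
open MeasureTheory ProbabilityTheory Filter Topology
open scoped NNReal Matrix ComplexOrder
open Pool.Agent.W837.GB

namespace Pool.Agent.W361.GB

theorem gam_prob (ι : Type) [Fintype ι] : IsProbabilityMeasure (gam ι) := by
  unfold gam; infer_instance

theorem sq_int : Integrable (fun x : ℝ => x ^ 2) (gaussianReal 0 1) := by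
  have h := memLp_id_gaussianReal (μ := 0) (v := 1) 2
  exact h.integrable_sq

theorem sq_val : ∫ x, x ^ 2 ∂(gaussianReal 0 1) = 1 := by
  have h := variance_of_integral_eq_zero (X := fun x : ℝ => x) (μ := gaussianReal 0 1)
    measurable_id'.aemeasurable (by simp)
  rw [variance_fun_id_gaussianReal] at h
  simpa using h.symm

theorem coord (ι : Type) [Fintype ι] (i : ι) :
    Integrable (fun g : ι → ℝ => (g i) ^ 2) (gam ι) ∧ ∫ g, (g i) ^ 2 ∂(gam ι) = 1 := by
  have hmp : MeasurePreserving (Function.eval i) (gam ι) (gaussianReal 0 1) :=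
    measurePreserving_eval (fun _ : ι => gaussianReal 0 1) i
  constructor
  · exact hmp.integrable_comp_of_integrable sq_int
  · have h := integral_map (μ := gam ι) (φ := Function.eval i) hmp.measurable.aemeasurable
      (f := fun x : ℝ => x ^ 2) (by rw [hmp.map_eq]; exact sq_int.aestronglyMeasurable)
    rw [hmp.map_eq, sq_val] at h
    exact h.symm

/-- determinant against the Hilbert-Schmidt norm -/
theorem det_le {ι : Type} [Fintype ι] [DecidableEq ι] [Nonempty ι] (M : Matrix ι ι ℂ) :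
    (‖M.det‖ ^ 2) ^ ((Fintype.card ι : ℝ)⁻¹) ≤ (∑ i, ∑ j, ‖M i j‖ ^ 2) / Fintype.card ι := by
  have hP : (M * Mᴴ).PosSemidef := Matrix.posSemidef_self_mul_conjTranspose M
  have hdet : ‖M.det‖ ^ 2 = ∏ i, hP.1.eigenvalues i := by
    have h1 : (M * Mᴴ).det = ∏ i, (hP.1.eigenvalues i : ℂ) := hP.1.det_eq_prod_eigenvalues
    have h2 : (M * Mᴴ).det = ((‖M.det‖ ^ 2 : ℝ) : ℂ) := by
      rw [Matrix.det_mul, Matrix.det_conjTranspose, Complex.star_def, Complex.mul_conj,
        Complex.normSq_eq_norm_sq]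
    rw [h1] at h2
    exact_mod_cast h2.symm
  have htr : ∑ i, hP.1.eigenvalues i = ∑ i, ∑ j, ‖M i j‖ ^ 2 := by
    have h1 : (M * Mᴴ).trace = ∑ i, (hP.1.eigenvalues i : ℂ) := hP.1.trace_eq_sum_eigenvalues
    have h2 : (M * Mᴴ).trace = ((∑ i, ∑ j, ‖M i j‖ ^ 2 : ℝ) : ℂ) := by
      rw [Matrix.trace]
      push_cast
      refine Finset.sum_congr rfl fun i _ => ?_
      rw [Matrix.diag_apply, Matrix.mul_apply]
      refine Finset.sum_congr rfl fun j _ => ?_
      rw [Matrix.conjTranspose_apply, Complex.star_def, Complex.mul_conj,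
        Complex.normSq_eq_norm_sq]
      push_cast
      rfl
    rw [h1] at h2
    exact_mod_cast h2
  have h := Real.geom_mean_le_arith_mean Finset.univ (fun _ : ι => (1 : ℝ)) hP.1.eigenvalues
    (fun _ _ => zero_le_one) (by simp [Fintype.card_pos]) (fun i _ => hP.eigenvalues_nonneg i)
  simp only [Real.rpow_one, one_mul, Finset.sum_const, Finset.card_univ, nsmul_eq_mul,
    mul_one] at h
  rw [← hdet, htr] at h
  exact h

theorem norm_Hm {κ : Type} (g : κ → κ → ℝ) (k l : κ) :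
    ‖Hm g k l‖ ^ 2 = ((g k l) ^ 2 + (g l k) ^ 2) / 2 := by
  rw [← Complex.normSq_eq_norm_sq]
  have : Hm g k l = ⟨(g k l + g l k) / 2, (g k l - g l k) / 2⟩ := by
    apply Complex.ext <;> simp [Hm]
  rw [this, Complex.normSq_mk]
  ring

/-- Hilbert-Schmidt norm of the random matrix -/
theorem hs_le {n m : ℕ} (a : Fin n → Matrix (Fin m) (Fin m) ℂ) (N : ℕ) (hN : 1 ≤ N)
    (g : Fin n × Fin N × Fin N → ℝ) :
    ∑ p, ∑ q, ‖AN a N g p q‖ ^ 2 ≤
      (∑ x, ∑ y, ∑ j, ‖a j x y‖ ^ 2) * ((N : ℝ)⁻¹ * ∑ i, (g i) ^ 2) := by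
  have hN0 : (0 : ℝ) < N := by exact_mod_cast hN
  have key : ∀ (x y : Fin m) (s t : Fin N), ‖AN a N g (x, s) (y, t)‖ ^ 2 ≤
      (∑ j, ‖a j x y‖ ^ 2) * ((N : ℝ)⁻¹ * ∑ j, ((g (j, s, t)) ^ 2 + (g (j, t, s)) ^ 2) / 2) := by
    intro x y s t
    have e1 : AN a N g (x, s) (y, t) = (((Real.sqrt N)⁻¹ : ℝ) : ℂ) *
        ∑ j, a j x y * Hm (fun k l => g (j, k, l)) s t := by
      simp only [AN, W, Matrix.smul_apply, Matrix.sum_apply, smul_eq_mul]
      rfl
    rw [e1, norm_mul, mul_pow, Complex.norm_real, Real.norm_eq_abs, sq_abs, inv_pow,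
      Real.sq_sqrt hN0.le]
    have e2 : ‖∑ j, a j x y * Hm (fun k l => g (j, k, l)) s t‖ ^ 2 ≤
        (∑ j, ‖a j x y‖ ^ 2) * ∑ j, ‖Hm (fun k l => g (j, k, l)) s t‖ ^ 2 := by
      have h1 : ‖∑ j, a j x y * Hm (fun k l => g (j, k, l)) s t‖ ≤
          ∑ j, ‖a j x y‖ * ‖Hm (fun k l => g (j, k, l)) s t‖ := by
        refine (norm_sum_le _ _).trans (le_of_eq ?_)
        exact Finset.sum_congr rfl fun j _ => norm_mul _ _
      refine (pow_le_pow_left₀ (norm_nonneg _) h1 2).trans ?_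
      exact Finset.sum_mul_sq_le_sq_mul_sq _ _ _
    have e3 : ∑ j, ‖Hm (fun k l => g (j, k, l)) s t‖ ^ 2 =
        ∑ j, ((g (j, s, t)) ^ 2 + (g (j, t, s)) ^ 2) / 2 :=
      Finset.sum_congr rfl fun j _ => norm_Hm _ _ _
    rw [e3] at e2
    calc (N : ℝ)⁻¹ * ‖∑ j, a j x y * Hm (fun k l => g (j, k, l)) s t‖ ^ 2
        ≤ (N : ℝ)⁻¹ * ((∑ j, ‖a j x y‖ ^ 2) *
          ∑ j, ((g (j, s, t)) ^ 2 + (g (j, t, s)) ^ 2) / 2) := by gcongr
      _ = _ := by ring
  have hS : ∑ s : Fin N, ∑ t : Fin N, ∑ j, ((g (j, s, t)) ^ 2 + (g (j, t, s)) ^ 2) / 2 =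
      ∑ i, (g i) ^ 2 := by
    have h1 : ∑ i, (g i) ^ 2 = ∑ j, ∑ s, ∑ t, (g (j, s, t)) ^ 2 := by
      rw [Fintype.sum_prod_type]
      refine Finset.sum_congr rfl fun j _ => ?_
      rw [Fintype.sum_prod_type]
    have h2 : ∑ s : Fin N, ∑ t : Fin N, ∑ j, ((g (j, s, t)) ^ 2 + (g (j, t, s)) ^ 2) / 2 =
        ∑ j, ∑ s : Fin N, ∑ t : Fin N, ((g (j, s, t)) ^ 2 + (g (j, t, s)) ^ 2) / 2 := by
      rw [Finset.sum_comm' (s := Finset.univ) (t := fun _ => Finset.univ)
        (t' := Finset.univ) (s' := fun _ => Finset.univ) (by simp)]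
      simp_rw [Finset.sum_comm (s := (Finset.univ : Finset (Fin N))) (t := (Finset.univ : Finset (Fin n)))]
      refine Finset.sum_congr rfl fun j _ => ?_
      rw [Finset.sum_comm]
    rw [h2, h1]
    refine Finset.sum_congr rfl fun j _ => ?_
    have h3 : ∑ s : Fin N, ∑ t : Fin N, (g (j, t, s)) ^ 2 =
        ∑ s : Fin N, ∑ t : Fin N, (g (j, s, t)) ^ 2 := Finset.sum_comm
    simp_rw [add_div, Finset.sum_add_distrib, ← Finset.sum_div]
    rw [h3]
    ring
  calc ∑ p, ∑ q, ‖AN a N g p q‖ ^ 2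
      = ∑ x, ∑ s, ∑ y, ∑ t, ‖AN a N g (x, s) (y, t)‖ ^ 2 := by
        rw [Fintype.sum_prod_type]
        refine Finset.sum_congr rfl fun x _ => Finset.sum_congr rfl fun s _ => ?_
        rw [Fintype.sum_prod_type]
    _ ≤ ∑ x, ∑ s, ∑ y, ∑ t, (∑ j, ‖a j x y‖ ^ 2) *
        ((N : ℝ)⁻¹ * ∑ j, ((g (j, s, t)) ^ 2 + (g (j, t, s)) ^ 2) / 2) := by
        refine Finset.sum_le_sum fun x _ => Finset.sum_le_sum fun s _ =>
          Finset.sum_le_sum fun y _ => Finset.sum_le_sum fun t _ => key x y s t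
    _ = ∑ x, ∑ y, (∑ j, ‖a j x y‖ ^ 2) * ((N : ℝ)⁻¹ *
        ∑ s, ∑ t, ∑ j, ((g (j, s, t)) ^ 2 + (g (j, t, s)) ^ 2) / 2) := by
        refine Finset.sum_congr rfl fun x _ => ?_
        rw [Finset.sum_comm]
        refine Finset.sum_congr rfl fun y _ => ?_
        simp_rw [Finset.mul_sum]
    _ = _ := by
        rw [hS]
        simp_rw [Finset.sum_mul]

/-- pointwise bound of the normalised determinant -/
theorem DN_sq_le {n m : ℕ} (hm : 1 ≤ m) (a : Fin n → Matrix (Fin m) (Fin m) ℂ) (N : ℕ)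
    (hN : 1 ≤ N) (g : Fin n × Fin N × Fin N → ℝ) :
    (DN a N g) ^ 2 ≤ (∑ x, ∑ y, ∑ j, ‖a j x y‖ ^ 2) * (((N : ℝ) ^ 2)⁻¹ * ∑ i, (g i) ^ 2) := by
  have hN0 : (0 : ℝ) < N := by exact_mod_cast hN
  have hm1 : (1 : ℝ) ≤ m := by exact_mod_cast hm
  have : Nonempty (Fin m × Fin N) := ⟨(⟨0, hm⟩, ⟨0, hN⟩)⟩
  have h := det_le (AN a N g)
  have hc : (Fintype.card (Fin m × Fin N) : ℝ) = m * N := by
    simp [Fintype.card_prod, Fintype.card_fin]
  rw [hc] at h
  have h1 : (DN a N g) ^ 2 = (‖(AN a N g).det‖ ^ 2) ^ (((m : ℝ) * N)⁻¹) := by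
    rw [DN, one_div, ← Real.rpow_natCast, ← Real.rpow_natCast,
      ← Real.rpow_mul (norm_nonneg _), ← Real.rpow_mul (norm_nonneg _), mul_comm]
  rw [h1]
  refine h.trans ?_
  have h2 := hs_le a N hN g
  have hA : 0 ≤ ∑ x, ∑ y, ∑ j, ‖a j x y‖ ^ 2 := by positivity
  have hS : 0 ≤ ∑ i, (g i) ^ 2 := by positivity
  calc (∑ p, ∑ q, ‖AN a N g p q‖ ^ 2) / (m * N)
      ≤ ((∑ x, ∑ y, ∑ j, ‖a j x y‖ ^ 2) * ((N : ℝ)⁻¹ * ∑ i, (g i) ^ 2)) / (m * N) := by
        gcongr
    _ ≤ ((∑ x, ∑ y, ∑ j, ‖a j x y‖ ^ 2) * ((N : ℝ)⁻¹ * ∑ i, (g i) ^ 2)) / (1 * N) := by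
        gcongr
    _ = _ := by
        rw [one_mul]
        field_simp

theorem DN_cont {n m : ℕ} (a : Fin n → Matrix (Fin m) (Fin m) ℂ) (N : ℕ) :
    Continuous (DN a N) := by
  unfold DN
  refine Continuous.rpow_const ?_ (fun _ => Or.inr (by positivity))
  refine Continuous.norm ?_
  refine Continuous.matrix_det ?_
  refine continuous_matrix fun p q => ?_
  have : (fun g : Fin n × Fin N × Fin N → ℝ => AN a N g p q) =
      fun g => (((Real.sqrt N)⁻¹ : ℝ) : ℂ) *
        ∑ j, a j p.1 q.1 * Hm (fun k l => g (j, k, l)) p.2 q.2 := by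
    funext g
    simp only [AN, W, Matrix.smul_apply, Matrix.sum_apply, smul_eq_mul]
    rfl
  rw [this]
  refine continuous_const.mul (continuous_finsetSum _ fun j _ => continuous_const.mul ?_)
  unfold Hm
  fun_prop

theorem exp_t : S_EXP := by
  intro n m a L hm hgood
  obtain ⟨A, hA⟩ : ∃ A : ℝ, A = ∑ x, ∑ y, ∑ j, ‖a j x y‖ ^ 2 := ⟨_, rfl⟩
  have hA0 : 0 ≤ A := by rw [hA]; positivity
  -- second moment
  have hS : ∀ N : ℕ, 1 ≤ N →
      Integrable (fun g : Fin n × Fin N × Fin N → ℝ => ((N : ℝ) ^ 2)⁻¹ * ∑ i, (g i) ^ 2) (gam _) ∧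
      ∫ g : Fin n × Fin N × Fin N → ℝ, ((N : ℝ) ^ 2)⁻¹ * ∑ i, (g i) ^ 2 ∂(gam _) = n := by
    intro N hN
    have hN0 : (0 : ℝ) < N := by exact_mod_cast hN
    constructor
    · exact (integrable_finsetSum _ fun i _ => (coord _ i).1).const_mul _
    · rw [integral_const_mul, integral_finsetSum _ fun i _ => (coord _ i).1]
      simp_rw [(coord _ _).2]
      simp only [Finset.sum_const, Finset.card_univ, Fintype.card_prod, Fintype.card_fin,
        nsmul_eq_mul, mul_one]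
      push_cast
      field_simp
  rw [Metric.tendsto_atTop]
  intro η hη
  obtain ⟨K, hK⟩ : ∃ K : ℝ, K = 2 * A * n + 2 * L ^ 2 + 1 := ⟨_, rfl⟩
  have hK1 : 0 < K := by rw [hK]; positivity
  obtain ⟨lam, hlam⟩ : ∃ lam : ℝ, lam = η / (4 * K) := ⟨_, rfl⟩
  have hlam0 : 0 < lam := by rw [hlam]; positivity
  obtain ⟨C, hC⟩ := hgood (η / 4) (by positivity)
  -- the rate tends to zero
  have hrt : Tendsto (fun N : ℕ => C * rt N / (4 * lam)) atTop (𝓝 0) := by
    have h1 : Tendsto (fun N : ℕ => rt N) atTop (𝓝 0) := by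
      unfold rt
      exact (tendsto_rpow_neg_atTop (by norm_num : (0 : ℝ) < 3 / 2)).comp
        tendsto_natCast_atTop_atTop
    have := (h1.const_mul C).div_const (4 * lam)
    simpa using this
  obtain ⟨N0, hN0⟩ := (Metric.tendsto_atTop.1 hrt) (η / 4) (by positivity)
  refine ⟨max N0 1, fun N hN => ?_⟩
  have hN1 : 1 ≤ N := le_trans (le_max_right _ _) hN
  have hNN : N0 ≤ N := le_trans (le_max_left _ _) hN
  have := gam_prob (Fin n × Fin N × Fin N)
  obtain ⟨hSi, hSv⟩ := hS N hN1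
  have hb : ∀ g, (DN a N g) ^ 2 ≤ A * (((N : ℝ) ^ 2)⁻¹ * ∑ i, (g i) ^ 2) := by
    intro g
    rw [hA]
    exact DN_sq_le hm a N hN1 g
  have hmeas : AEStronglyMeasurable (DN a N) (gam (Fin n × Fin N × Fin N)) :=
    (DN_cont a N).aestronglyMeasurable
  have hSqi : Integrable (fun g => (DN a N g) ^ 2) (gam (Fin n × Fin N × Fin N)) := by
    refine (hSi.const_mul A).mono' (hmeas.pow 2) (Eventually.of_forall fun g => ?_)
    rw [Real.norm_eq_abs, abs_of_nonneg (sq_nonneg _)]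
    exact hb g
  have hDi : Integrable (DN a N) (gam (Fin n × Fin N × Fin N)) := by
    refine ((integrable_const (1 : ℝ)).add hSqi).mono' hmeas (Eventually.of_forall fun g => ?_)
    rw [Real.norm_eq_abs]
    simp only [Pi.add_apply]
    nlinarith [sq_abs (DN a N g), sq_nonneg (|DN a N g| - 1)]
  have hset : MeasurableSet {g : Fin n × Fin N × Fin N → ℝ | η / 4 ≤ |DN a N g - L|} :=
    measurableSet_le measurable_const ((DN_cont a N).measurable.sub_const L).abs
  have hpt : ∀ g, |DN a N g - L| ≤ η / 4 + lam * (2 * (DN a N g) ^ 2 + 2 * L ^ 2) +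
      (1 / (4 * lam)) * Set.indicator {g | η / 4 ≤ |DN a N g - L|} (fun _ => (1 : ℝ)) g := by
    intro g
    have h0 : 0 ≤ lam * (2 * (DN a N g) ^ 2 + 2 * L ^ 2) := by positivity
    by_cases h : η / 4 ≤ |DN a N g - L|
    · rw [Set.indicator_of_mem (by exact h)]
      have h1 : |DN a N g - L| ≤ lam * (DN a N g - L) ^ 2 + 1 / (4 * lam) := by
        have h2 : lam * (DN a N g - L) ^ 2 + 1 / (4 * lam) - |DN a N g - L| =
            lam * (|DN a N g - L| - 1 / (2 * lam)) ^ 2 := by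
          have h3 : (DN a N g - L) ^ 2 = |DN a N g - L| ^ 2 := (sq_abs _).symm
          rw [h3]
          field_simp
          ring
        have h4 : 0 ≤ lam * (|DN a N g - L| - 1 / (2 * lam)) ^ 2 := by positivity
        linarith
      have h2 : (DN a N g - L) ^ 2 ≤ 2 * (DN a N g) ^ 2 + 2 * L ^ 2 := by
        nlinarith [sq_nonneg (DN a N g + L)]
      have h3 := mul_le_mul_of_nonneg_left h2 hlam0.le
      linarith
    · rw [Set.indicator_of_notMem (by exact h)]
      rw [not_le] at h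
      linarith
  have hint : ∫ g, |DN a N g - L| ∂(gam (Fin n × Fin N × Fin N)) ≤
      η / 4 + lam * (2 * (A * n) + 2 * L ^ 2) + (1 / (4 * lam)) *
        (gam (Fin n × Fin N × Fin N)).real {g | η / 4 ≤ |DN a N g - L|} := by
    have i1 : Integrable (fun g => lam * (2 * (DN a N g) ^ 2 + 2 * L ^ 2))
        (gam (Fin n × Fin N × Fin N)) :=
      ((hSqi.const_mul 2).add (integrable_const _)).const_mul lam
    have i2 : Integrable (fun g => (1 / (4 * lam)) *
        Set.indicator {g | η / 4 ≤ |DN a N g - L|} (fun _ => (1 : ℝ)) g)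
        (gam (Fin n × Fin N × Fin N)) :=
      ((integrable_const (1 : ℝ)).indicator hset).const_mul _
    have i3 : Integrable (fun g => η / 4 + lam * (2 * (DN a N g) ^ 2 + 2 * L ^ 2))
        (gam (Fin n × Fin N × Fin N)) := (integrable_const _).add i1
    refine (integral_mono (g := fun g => η / 4 + lam * (2 * (DN a N g) ^ 2 + 2 * L ^ 2) +
      (1 / (4 * lam)) * Set.indicator {g | η / 4 ≤ |DN a N g - L|} (fun _ => (1 : ℝ)) g)
      (hDi.sub (integrable_const L)).abs (i3.add i2) hpt).trans ?_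
    have e1 : ∫ g, (η / 4 + lam * (2 * (DN a N g) ^ 2 + 2 * L ^ 2) +
        (1 / (4 * lam)) *
          Set.indicator {g | η / 4 ≤ |DN a N g - L|} (fun _ => (1 : ℝ)) g)
          ∂(gam (Fin n × Fin N × Fin N)) =
        η / 4 + lam * (2 * ∫ g, (DN a N g) ^ 2 ∂(gam (Fin n × Fin N × Fin N)) + 2 * L ^ 2) +
        (1 / (4 * lam)) *
        (gam (Fin n × Fin N × Fin N)).real {g | η / 4 ≤ |DN a N g - L|} := by
      rw [integral_add i3 i2, integral_add (integrable_const _) i1, integral_const_mul,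
        integral_const_mul, integral_add (hSqi.const_mul 2) (integrable_const _),
        integral_const_mul, integral_indicator_const _ hset]
      simp
    rw [e1]
    have h2 : ∫ g, (DN a N g) ^ 2 ∂(gam (Fin n × Fin N × Fin N)) ≤ A * n := by
      refine (integral_mono hSqi (hSi.const_mul A) hb).trans ?_
      rw [integral_const_mul, hSv]
    gcongr
  have h3 := hC N hN1
  have h4 := hN0 N hNN
  rw [Real.dist_eq, sub_zero] at h4
  have h5 : C * rt N / (4 * lam) < η / 4 := lt_of_le_of_lt (le_abs_self _) h4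
  have h6 : (1 / (4 * lam)) *
        (gam (Fin n × Fin N × Fin N)).real {g | η / 4 ≤ |DN a N g - L|} ≤
        C * rt N / (4 * lam) := by
    rw [div_mul_eq_mul_div, one_mul]
    gcongr
  have h7 : lam * (2 * (A * n) + 2 * L ^ 2) ≤ η / 4 := by
    have : 2 * (A * n) + 2 * L ^ 2 ≤ K := by rw [hK]; linarith
    calc lam * (2 * (A * n) + 2 * L ^ 2) ≤ lam * K := by gcongr
      _ = η / 4 := by rw [hlam]; field_simp
  have h8 : |∫ g, DN a N g ∂(gam (Fin n × Fin N × Fin N)) - L| ≤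
      ∫ g, |DN a N g - L| ∂(gam (Fin n × Fin N × Fin N)) := by
    have e : ∫ g, DN a N g ∂(gam (Fin n × Fin N × Fin N)) - L =
        ∫ g, (DN a N g - L) ∂(gam (Fin n × Fin N × Fin N)) := by
      rw [integral_sub hDi (integrable_const L)]
      simp
    rw [e]
    exact abs_integral_le_integral_abs
  rw [Real.dist_eq]
  linarith

end Pool.Agent.W361.GB
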